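import Pool.Agent.C4N.Stm

/-!
# RES: the centred second order residual is small
-/

set_option autoImplicit false
set_option linter.unusedSectionVars false

open scoped BigOperators

noncomputable section

namespace Pool.Agent.C4N.H82

open Finset
open Pool.Agent.Helper13_Conc (mean mean_sum mean_mul_left mean_prod_dep mean_coord mean_const
  mean_sub mcd_abs Dep)

/-! ## tools -/

section tools

variable {E α : Type*} [Fintype E] [DecidableEq E] [Fintype α] [Nonempty α]

/-- counting over the fibres of the coordinates in `S` -/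
theorem fiber_count (S : Finset E) (P : (E → α) → Prop) [DecidablePred P] (ε : ℝ)
    (h : ∀ ω0 : E → α, ((univ.filter fun η : E → α => P (S.piecewise ω0 η)).card : ℝ) ≤
      ε * Fintype.card (E → α)) :
    ((univ.filter P).card : ℝ) ≤ ε * Fintype.card (E → α) := by
  classical
  have key : ∑ p : (E → α) × (E → α), (if P p.1 then (1 : ℝ) else 0) =
      ∑ p : (E → α) × (E → α), (if P (S.piecewise p.1 p.2) then (1 : ℝ) else 0) := by
    refine Finset.sum_nbij' (fun p => (S.piecewise p.1 p.2, S.piecewise p.2 p.1))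
      (fun p => (S.piecewise p.1 p.2, S.piecewise p.2 p.1)) ?_ ?_ ?_ ?_ ?_
    · intro p _
      exact Finset.mem_univ _
    · intro p _
      exact Finset.mem_univ _
    · rintro ⟨ω, ω'⟩ _
      simp only [Prod.mk.injEq]
      constructor <;> (funext v; by_cases hv : v ∈ S <;> simp [hv])
    · rintro ⟨ω, ω'⟩ _
      simp only [Prod.mk.injEq]
      constructor <;> (funext v; by_cases hv : v ∈ S <;> simp [hv])
    · rintro ⟨ω, ω'⟩ _
      have h2 : S.piecewise (S.piecewise ω ω') (S.piecewise ω' ω) = ω := by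
        funext v
        by_cases hv : v ∈ S <;> simp [hv]
      simp only [h2]
  have e1 : ∑ p : (E → α) × (E → α), (if P p.1 then (1 : ℝ) else 0) =
      ((univ.filter P).card : ℝ) * Fintype.card (E → α) := by
    rw [Fintype.sum_prod_type]
    calc ∑ ω : E → α, ∑ _η : E → α, (if P ω then (1 : ℝ) else 0) =
        ∑ ω : E → α, (Fintype.card (E → α) : ℝ) * (if P ω then (1 : ℝ) else 0) := by
          apply Finset.sum_congr rfl
          intro ω _
          rw [Finset.sum_const, Finset.card_univ, nsmul_eq_mul]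
      _ = _ := by rw [← Finset.mul_sum, Finset.sum_boole, mul_comm]
  have e2 : ∑ p : (E → α) × (E → α), (if P (S.piecewise p.1 p.2) then (1 : ℝ) else 0) ≤
      (ε * Fintype.card (E → α)) * Fintype.card (E → α) := by
    rw [Fintype.sum_prod_type]
    calc ∑ ω : E → α, ∑ η : E → α, (if P (S.piecewise ω η) then (1 : ℝ) else 0) ≤
        ∑ _ω : E → α, ε * Fintype.card (E → α) := by
          apply Finset.sum_le_sum
          intro ω _
          rw [Finset.sum_boole]
          exact h ω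
      _ = _ := by
          rw [Finset.sum_const, Finset.card_univ, nsmul_eq_mul]
          ring
  have hpos : (0 : ℝ) < Fintype.card (E → α) := by exact_mod_cast Fintype.card_pos
  rw [e1] at key
  rw [← key] at e2
  exact le_of_mul_le_mul_right e2 hpos

/-- the mean of a function of the coordinates `i j` -/
theorem mean_comp {ι : Type*} [Fintype ι] [DecidableEq ι] (i : ι → E)
    (hi : Function.Injective i) (F : (ι → α) → ℝ) :
    mean (fun η : E → α => F (fun j => η (i j))) = mean F := by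
  classical
  have h1 : (fun η : E → α => F (fun j => η (i j))) =
      fun η => ∑ ζ : ι → α, F ζ * ∏ j : ι, (if η (i j) = ζ j then (1 : ℝ) else 0) := by
    funext η
    rw [Finset.sum_eq_single (fun j => η (i j))]
    · simp
    · intro ζ _ hne
      obtain ⟨j, hj⟩ := Function.ne_iff.1 hne
      rw [Finset.prod_eq_zero (Finset.mem_univ j), mul_zero]
      rw [if_neg]
      exact fun h => hj h.symm
    · intro h
      exact absurd (Finset.mem_univ _) h
  rw [h1, mean_sum]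
  have h2 : ∀ ζ ∈ (univ : Finset (ι → α)),
      mean (fun η : E → α => F ζ * ∏ j : ι, (if η (i j) = ζ j then (1 : ℝ) else 0)) =
      F ζ * (1 / Fintype.card α) ^ Fintype.card ι := by
    intro ζ _
    rw [mean_mul_left, mean_prod_dep univ (fun j => {i j}) (by
      intro a _ b _ hab
      rw [Finset.disjoint_singleton]
      exact fun h => hab (hi h)) (fun j (η : E → α) => if η (i j) = ζ j then (1 : ℝ) else 0) (by
      intro j _ ω ω' hω
      have := hω (i j) (Finset.mem_singleton_self _)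
      show (if ω (i j) = ζ j then (1 : ℝ) else 0) = if ω' (i j) = ζ j then (1 : ℝ) else 0
      rw [this])]
    congr 1
    rw [Finset.prod_congr rfl (g := fun _ => 1 / (Fintype.card α : ℝ))]
    · rw [Finset.prod_const, Finset.card_univ]
    · intro j _
      rw [mean_coord (i j) (fun a => if a = ζ j then (1 : ℝ) else 0)]
      simp
  rw [Finset.sum_congr rfl h2, ← Finset.sum_mul]
  unfold mean
  rw [Fintype.card_fun]
  push_cast
  rw [one_div, inv_pow, div_eq_mul_inv]

end tools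

/-! ## the truncated quotient -/

/-- clipping is a contraction -/
theorem clip_sub (c x y : ℝ) :
    |max (-c) (min c x) - max (-c) (min c y)| ≤ |x - y| := by
  refine (abs_max_sub_max_le_max _ _ _ _).trans ?_
  rw [sub_self, abs_zero]
  apply max_le (abs_nonneg _)
  refine (abs_min_sub_min_le_max _ _ _ _).trans ?_
  rw [sub_self, abs_zero]
  exact max_le (abs_nonneg _) le_rfl

theorem clip_abs {c : ℝ} (hc : 0 ≤ c) (x : ℝ) : |max (-c) (min c x)| ≤ c := by
  rw [abs_le]
  exact ⟨le_max_left _ _, max_le (by linarith) (min_le_left _ _)⟩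

theorem GG_diff {s : ℕ} (hs : 32 ≤ s) (N a b a' b' : ℝ) (ha : |a - a'| ≤ 1) (hb : |b - b'| ≤ 1) :
    |GG s N a b - GG s N a' b'| ≤ 3 / s := by
  have hs0 : (32 : ℝ) ≤ s := by exact_mod_cast hs
  have hsp : (0 : ℝ) < s := by linarith
  have h6 : 4 * (s : ℝ) ^ (0.6 : ℝ) ≤ s := by
    have h1 : (s : ℝ) = (s : ℝ) ^ (0.4 : ℝ) * (s : ℝ) ^ (0.6 : ℝ) := by
      rw [← Real.rpow_add hsp]
      norm_num
    have h2 : (4 : ℝ) ≤ (s : ℝ) ^ (0.4 : ℝ) := by
      have h3 : ((32 : ℝ) ^ (0.4 : ℝ)) ≤ (s : ℝ) ^ (0.4 : ℝ) :=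
        Real.rpow_le_rpow (by norm_num) hs0 (by norm_num)
      have h4 : ((32 : ℝ) ^ (0.4 : ℝ)) = 4 := by
        rw [show (32 : ℝ) = 2 ^ (5 : ℝ) by norm_num, ← Real.rpow_mul (by norm_num)]
        norm_num
      linarith
    have h5 : 0 ≤ (s : ℝ) ^ (0.6 : ℝ) := by positivity
    calc 4 * (s : ℝ) ^ (0.6 : ℝ) ≤ (s : ℝ) ^ (0.4 : ℝ) * (s : ℝ) ^ (0.6 : ℝ) :=
          mul_le_mul_of_nonneg_right h2 h5
      _ = s := h1.symm
  unfold GG
  set c : ℝ := (s : ℝ) ^ (0.6 : ℝ) with hc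
  have hc0 : 0 ≤ c := by positivity
  set u := max (-c) (min c (N - b)) with hu
  set u' := max (-c) (min c (N - b')) with hu'
  set m := max a ((s : ℝ) / 2) with hm
  set m' := max a' ((s : ℝ) / 2) with hm'
  have hm0 : (s : ℝ) / 2 ≤ m := le_max_right _ _
  have hm0' : (s : ℝ) / 2 ≤ m' := le_max_right _ _
  have hmp : 0 < m := by linarith
  have hmp' : 0 < m' := by linarith
  have h1 : |u - u'| ≤ 1 := by
    refine (clip_sub c _ _).trans ?_
    have : N - b - (N - b') = b' - b := by ring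
    rw [this, abs_sub_comm]
    exact hb
  have h2 : |m - m'| ≤ 1 := by
    refine (abs_max_sub_max_le_max _ _ _ _).trans ?_
    rw [sub_self, abs_zero]
    exact max_le ha zero_le_one
  have h3 : |u'| ≤ c := clip_abs hc0 _
  have e : u / m - u' / m' = (u - u') / m + u' * ((m' - m) / (m * m')) := by
    field_simp
    ring
  rw [e]
  calc |(u - u') / m + u' * ((m' - m) / (m * m'))| ≤
      |(u - u') / m| + |u' * ((m' - m) / (m * m'))| := abs_add_le _ _
    _ ≤ 1 / ((s : ℝ) / 2) + c * (1 / ((s : ℝ) / 2 * ((s : ℝ) / 2))) := by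
        apply add_le_add
        · rw [abs_div, abs_of_pos hmp]
          exact div_le_div₀ zero_le_one h1 (by positivity) hm0
        · rw [abs_mul, abs_div, abs_of_pos (mul_pos hmp hmp')]
          apply mul_le_mul h3 _ (by positivity) hc0
          apply div_le_div₀ zero_le_one _ (by positivity)
          · exact mul_le_mul hm0 hm0' (by positivity) hmp.le
          · rw [abs_sub_comm]
            exact h2
    _ = (2 * s + 4 * c) / (s * s) := by
        field_simp
        ring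
    _ ≤ (2 * s + s) / (s * s) := by
        apply div_le_div_of_nonneg_right _ (by positivity)
        linarith
    _ = 3 / s := by
        field_simp
        ring

/-! ## the fixed coins -/

section main

open scoped Classical

variable {V : Type} [Fintype V] {K : ℕ}

/-- the fixed coins: arcs into the out-neighbours of `x` -/
def SS (O : V → V → Prop) (x : V) : Finset (Sym2 V) :=
  univ.filter fun e => ∃ a y, O x y ∧ O a y ∧ e = s(a, y)

theorem mem_SS {O : V → V → Prop} {x a y : V} (h1 : O x y) (h2 : O a y) : s(a, y) ∈ SS O x := by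
  unfold SS
  rw [Finset.mem_filter]
  exact ⟨Finset.mem_univ _, a, y, h1, h2, rfl⟩

theorem not_mem_SS {R : SimpleGraph V} {O : V → V → Prop} (hC : C4free R)
    (hO : ∀ x y, O x y → R.Adj x y) (has : ∀ x y, O x y → ¬ O y x) {x x' y z : V}
    (h1 : O x y) (h2 : O x' y) (hne : x' ≠ x) (h3 : O x' z) (hz : z ≠ y) :
    s(x', z) ∉ SS O x := by
  intro h
  unfold SS at h
  rw [Finset.mem_filter] at h
  obtain ⟨_, a, y', h4, h5, h6⟩ := h
  rw [Sym2.eq_iff] at h6
  rcases h6 with ⟨rfl, rfl⟩ | ⟨rfl, rfl⟩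
  · exact hz (hC x x' z y hne.symm (hO _ _ h4) (hO _ _ h3) (hO _ _ h1) (hO _ _ h2))
  · exact has _ _ h3 h5

theorem cP_eq (O : V → V → Prop) (T : Fin K → Prop) (ω : Sym2 V → Fin K) (x : V) :
    cP O T ω x = ∑ y ∈ univ.filter (fun y => O x y), (if T (ω s(x, y)) then (1 : ℝ) else 0) := by
  unfold cP
  rw [Finset.sum_boole, Finset.filter_filter]

/-- sums over the out-arcs of `x'` -/
theorem gsum {R : SimpleGraph V} {O : V → V → Prop} (hC : C4free R)
    (hO : ∀ x y, O x y → R.Adj x y) (has : ∀ x y, O x y → ¬ O y x) {x x' y : V}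
    (h1 : O x y) (h2 : O x' y) (hne : x' ≠ x) {d : ℕ}
    (e : Fin d ≃ {z // z ∈ univ.filter fun z => O x' z ∧ z ≠ y}) (ω0 η ω : Sym2 V → Fin K)
    (hS : ∀ a ∈ SS O x, ω a = ω0 a) (hn : ∀ a, a ∉ SS O x → ω a = η a) (g : Fin K → ℝ) :
    ∑ z ∈ univ.filter (fun z => O x' z), g (ω s(x', z)) =
      g (ω0 s(x', y)) + ∑ j : Fin d, g (η s(x', (e j).1)) := by
  have h3 : (univ.filter fun z => O x' z) =
      insert y (univ.filter fun z => O x' z ∧ z ≠ y) := by
    ext z
    simp only [Finset.mem_filter, Finset.mem_univ, true_and, Finset.mem_insert]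
    constructor
    · intro h
      by_cases hz : z = y
      · exact Or.inl hz
      · exact Or.inr ⟨h, hz⟩
    · rintro (h | h)
      · rw [h]; exact h2
      · exact h.1
  have h4 : y ∉ univ.filter fun z => O x' z ∧ z ≠ y := by
    simp
  rw [h3, Finset.sum_insert h4, hS _ (mem_SS h1 h2)]
  congr 1
  rw [← Equiv.sum_comp e.symm, ← Finset.sum_coe_sort]
  apply Finset.sum_congr rfl
  intro z _
  rw [Equiv.apply_symm_apply]
  obtain ⟨z, hz⟩ := z
  rw [Finset.mem_filter] at hz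
  rw [hn _ (not_mem_SS hC hO has h1 h2 hne hz.2.1 hz.2.2)]

/-- the mean of the first correction -/
theorem mean_GP {R : SimpleGraph V} {O : V → V → Prop} (hC : C4free R)
    (hO : ∀ x y, O x y → R.Adj x y) (has : ∀ x y, O x y → ¬ O y x) {x x' y : V}
    (h1 : O x y) (h2 : O x' y) (hne : x' ≠ x) (hK : 1 ≤ K) (T : Fin K → Prop) (h : Fin K → ℝ)
    (s : ℕ) (N hh : ℝ) (hT : ∀ t, T t → h t = hh) (ω0 : Sym2 V → Fin K)
    (h0 : T (ω0 s(x', y))) (mx : (Sym2 V → Fin K) → (Sym2 V → Fin K))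
    (hS : ∀ η, ∀ a ∈ SS O x, mx η a = ω0 a) (hn : ∀ η a, a ∉ SS O x → mx η a = η a) :
    mean (fun η : Sym2 V → Fin K => GP O T h s N (mx η) x') =
      muG T h s N hh (od O x' - 1) := by
  have : Nonempty (Fin K) := ⟨⟨0, hK⟩⟩
  have hcard : (univ.filter fun z => O x' z ∧ z ≠ y).card = od O x' - 1 := by
    unfold od
    have h3 : (univ.filter fun z => O x' z ∧ z ≠ y) = (univ.filter fun z => O x' z).erase y := by
      ext z
      simp only [Finset.mem_filter, Finset.mem_univ, true_and, Finset.mem_erase]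
      tauto
    rw [h3, Finset.card_erase_of_mem (by simp [h2])]
  set e := (Finset.equivFinOfCardEq hcard).symm with he
  have hinj : Function.Injective fun j : Fin (od O x' - 1) => s(x', (e j).1) := by
    intro j j' hj
    have h3 : (e j).1 = (e j').1 := Sym2.congr_right.1 hj
    exact e.injective (Subtype.ext h3)
  unfold muG
  rw [← mean_comp (E := Sym2 V) (fun j : Fin (od O x' - 1) => s(x', (e j).1)) hinj]
  congr 1
  funext η
  unfold GP
  rw [cP_eq]
  unfold hP
  rw [gsum hC hO has h1 h2 hne e ω0 η (mx η) (hS η) (hn η)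
      (fun t => if T t then (1 : ℝ) else 0),
    gsum hC hO has h1 h2 hne e ω0 η (mx η) (hS η) (hn η) h, if_pos h0, hT _ h0,
    Finset.sum_boole]

/-- nested sums -/
theorem nest (P : V → Prop) (Q : V → V → Prop) (c : V → ℝ) (g : V → ℝ) :
    ∑ y ∈ univ.filter P, c y * ∑ x' ∈ univ.filter (Q y), g x' =
      ∑ p ∈ (univ : Finset (V × V)).filter (fun p => P p.1 ∧ Q p.1 p.2), c p.1 * g p.2 := by
  rw [Finset.sum_filter, Finset.sum_filter, Fintype.sum_prod_type]
  apply Finset.sum_congr rfl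
  intro y _
  by_cases hP : P y
  · rw [if_pos hP, Finset.mul_sum, Finset.sum_filter]
    apply Finset.sum_congr rfl
    intro x' _
    by_cases hQ : Q y x' <;> simp [hP, hQ]
  · rw [if_neg hP]
    symm
    apply Finset.sum_eq_zero
    intro x' _
    rw [if_neg]
    exact fun h => hP h.1

/-- the pairs `(y, x')` -/
def LL (O : V → V → Prop) (T : Fin K → Prop) (ω0 : Sym2 V → Fin K) (x : V) : Finset (V × V) :=
  univ.filter fun p => (O x p.1 ∧ T (ω0 s(x, p.1))) ∧
    (p.2 ≠ x ∧ O p.2 p.1 ∧ T (ω0 s(p.2, p.1)))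

/-- `Fr` on a fibre -/
theorem Fr_eq (O : V → V → Prop) (T : Fin K → Prop) (h : Fin K → ℝ) (s : ℕ) (N hh : ℝ)
    (ω0 ω : Sym2 V → Fin K) (x : V) (hS : ∀ a ∈ SS O x, ω a = ω0 a) :
    Fr O T h s N hh ω x = ∑ p ∈ LL O T ω0 x,
      (max (cP (fun u v => O v u) T ω0 p.1) ((s : ℝ) / 2))⁻¹ *
        (muG T h s N hh (od O p.2 - 1) - GP O T h s N ω p.2) := by
  refine Eq.trans ?_ ((nest (fun y => O x y ∧ T (ω0 s(x, y)))
    (fun y x' => x' ≠ x ∧ O x' y ∧ T (ω0 s(x', y)))
    (fun y => (max (cP (fun u v => O v u) T ω0 y) ((s : ℝ) / 2))⁻¹)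
    (fun x' => muG T h s N hh (od O x' - 1) - GP O T h s N ω x')).trans ?_)
  swap
  · apply Finset.sum_congr _ (fun _ _ => rfl)
    ext p
    unfold LL
    simp only [Finset.mem_filter]
  unfold Fr
  apply Finset.sum_congr
  · ext y
    simp only [Finset.mem_filter, Finset.mem_univ, true_and]
    constructor
    · rintro ⟨h1, h2⟩
      exact ⟨h1, by rw [← hS _ (mem_SS h1 h1)]; exact h2⟩
    · rintro ⟨h1, h2⟩
      exact ⟨h1, by rw [hS _ (mem_SS h1 h1)]; exact h2⟩
  intro y hy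
  have hy1 : O x y := by
    simp only [Finset.mem_filter, Finset.mem_univ, true_and] at hy
    exact hy.1
  have h4 : cP (fun u v => O v u) T ω y = cP (fun u v => O v u) T ω0 y := by
    unfold cP
    congr 2
    ext a
    simp only [Finset.mem_filter, Finset.mem_univ, true_and]
    constructor
    · rintro ⟨h1, h2⟩
      refine ⟨h1, ?_⟩
      rw [Sym2.eq_swap] at h2 ⊢
      rw [← hS _ (mem_SS hy1 h1)]
      exact h2
    · rintro ⟨h1, h2⟩
      refine ⟨h1, ?_⟩
      rw [Sym2.eq_swap] at h2 ⊢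
      rw [hS _ (mem_SS hy1 h1)]
      exact h2
  rw [h4]
  congr 1
  apply Finset.sum_congr _ (fun _ _ => rfl)
  ext a
  simp only [Finset.mem_filter, Finset.mem_univ, true_and]
  constructor
  · rintro ⟨h0, h1, h2⟩
    exact ⟨h0, h1, by rw [← hS _ (mem_SS hy1 h1)]; exact h2⟩
  · rintro ⟨h0, h1, h2⟩
    exact ⟨h0, h1, by rw [hS _ (mem_SS hy1 h1)]; exact h2⟩

/-- two coins with the same edge -/
theorem LL_uniq {R : SimpleGraph V} {O : V → V → Prop} (hC : C4free R)
    (hO : ∀ x y, O x y → R.Adj x y) (has : ∀ x y, O x y → ¬ O y x) {x : V} {T : Fin K → Prop}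
    {ω0 : Sym2 V → Fin K} {p p' : V × V} (hp : p ∈ LL O T ω0 x) (hp' : p' ∈ LL O T ω0 x)
    {a : Sym2 V} (h : ∃ z, O p.2 z ∧ a = s(p.2, z)) (h' : ∃ z, O p'.2 z ∧ a = s(p'.2, z)) :
    p = p' := by
  obtain ⟨y, x'⟩ := p
  obtain ⟨y', x''⟩ := p'
  obtain ⟨z, hz, rfl⟩ := h
  obtain ⟨z', hz', he⟩ := h'
  unfold LL at hp hp'
  simp only [Finset.mem_filter, Finset.mem_univ, true_and] at hp hp' hz hz' he
  rw [Sym2.eq_iff] at he
  rcases he with ⟨rfl, _⟩ | ⟨rfl, rfl⟩
  · have h3 := hC x x' y y' hp.2.1.symm (hO _ _ hp.1.1) (hO _ _ hp.2.2.1) (hO _ _ hp'.1.1)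
      (hO _ _ hp'.2.2.1)
    rw [h3]
  · exact absurd hz' (has _ _ hz)

theorem LL_card {O : V → V → Prop} {x : V} {T : Fin K → Prop} {ω0 : Sym2 V → Fin K} {k : ℕ}
    (hk : ∀ x, od O x ≤ k ∧ od (fun u v => O v u) x ≤ k) :
    (univ.filter fun a : Sym2 V => ∃ p ∈ LL O T ω0 x, ∃ z, O p.2 z ∧ a = s(p.2, z)).card ≤
      k ^ 3 := by
  have h1 : (univ.filter fun a : Sym2 V => ∃ p ∈ LL O T ω0 x, ∃ z, O p.2 z ∧ a = s(p.2, z)) ⊆
      (univ.filter fun y => O x y).biUnion fun y => (univ.filter fun x' => O x' y).biUnion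
        fun x' => (univ.filter fun z => O x' z).image fun z => s(x', z) := by
    intro a ha
    rw [Finset.mem_filter] at ha
    obtain ⟨_, p, hp, z, hz, rfl⟩ := ha
    unfold LL at hp
    rw [Finset.mem_filter] at hp
    rw [Finset.mem_biUnion]
    refine ⟨p.1, by simp [hp.2.1.1], ?_⟩
    rw [Finset.mem_biUnion]
    refine ⟨p.2, by simp [hp.2.2.2.1], ?_⟩
    rw [Finset.mem_image]
    exact ⟨z, by simp [hz], rfl⟩
  refine (Finset.card_le_card h1).trans ?_
  have h2 : ∀ y ∈ univ.filter fun y => O x y, ((univ.filter fun x' => O x' y).biUnion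
      fun x' => (univ.filter fun z => O x' z).image fun z => s(x', z)).card ≤ k * k := by
    intro y _
    refine (Finset.card_biUnion_le_card_mul _ _ k fun x' _ =>
      Finset.card_image_le.trans (hk x').1).trans ?_
    exact Nat.mul_le_mul_right k (hk y).2
  refine (Finset.card_biUnion_le_card_mul _ _ (k * k) h2).trans ?_
  calc (univ.filter fun y => O x y).card * (k * k) ≤ k * (k * k) :=
        Nat.mul_le_mul_right _ (hk x).1
    _ = k ^ 3 := by ring

/-- the first correction and one coin -/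
theorem GP_diff (O : V → V → Prop) (T : Fin K → Prop) (h : Fin K → ℝ)
    (h01 : ∀ t, 0 ≤ h t ∧ h t ≤ 1) {s : ℕ} (hs : 32 ≤ s) (N : ℝ) (ω ω' : Sym2 V → Fin K)
    (a : Sym2 V) (hω : ∀ b, b ≠ a → ω b = ω' b) (x' : V) :
    |GP O T h s N ω x' - GP O T h s N ω' x'| ≤
      if ∃ z, O x' z ∧ a = s(x', z) then 3 / (s : ℝ) else 0 := by
  have key : ∀ (g : Fin K → ℝ), (∀ t, 0 ≤ g t ∧ g t ≤ 1) →
      |∑ z ∈ univ.filter (fun z => O x' z), g (ω s(x', z)) -
        ∑ z ∈ univ.filter (fun z => O x' z), g (ω' s(x', z))| ≤ 1 := by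
    intro g hg
    rw [← Finset.sum_sub_distrib]
    by_cases hz : ∃ z, O x' z ∧ a = s(x', z)
    · obtain ⟨z, hz1, hz2⟩ := hz
      rw [Finset.sum_eq_single z]
      · rw [abs_le]
        constructor
        · linarith [(hg (ω s(x', z))).1, (hg (ω' s(x', z))).2]
        · linarith [(hg (ω s(x', z))).2, (hg (ω' s(x', z))).1]
      · intro z' _ hne
        rw [hω, sub_self]
        rw [hz2]
        intro h
        exact hne (Sym2.congr_right.1 h)
      · intro hn
        exfalso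
        apply hn
        simp [hz1]
    · rw [Finset.sum_eq_zero]
      · simp
      · intro z hz'
        rw [hω, sub_self]
        intro h
        exact hz ⟨z, by simpa using hz', h.symm⟩
  split_ifs with hz
  · unfold GP
    apply GG_diff hs
    · rw [cP_eq, cP_eq]
      apply key (fun t => if T t then (1 : ℝ) else 0)
      intro t
      split_ifs <;> norm_num
    · exact key h h01
  · have e : ∀ z, O x' z → ω s(x', z) = ω' s(x', z) := by
      intro z hz'
      apply hω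
      intro h
      exact hz ⟨z, hz', h.symm⟩
    have h1 : cP O T ω x' = cP O T ω' x' := by
      rw [cP_eq, cP_eq]
      apply Finset.sum_congr rfl
      intro z hz'
      rw [e z (by simpa using hz')]
    have h2 : hP O h ω x' = hP O h ω' x' := by
      unfold hP
      apply Finset.sum_congr rfl
      intro z hz'
      rw [e z (by simpa using hz')]
    unfold GP
    rw [h1, h2, sub_self, abs_zero]

/-- the numbers -/
theorem num {k s : ℕ} (hk : 144 ^ 20 ≤ k) (hs : (k : ℝ) ^ (0.99 : ℝ) ≤ s) :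
    2 * Real.exp (-(((k : ℝ) ^ (-0.45 : ℝ)) ^ 2 / (2 * (36 * (k : ℝ) ^ 3 / (s : ℝ) ^ 4)))) ≤
      Real.exp (-(k : ℝ) ^ (0.01 : ℝ)) := by
  have hkR : ((144 : ℝ) ^ 20) ≤ k := by exact_mod_cast hk
  have hk1 : (1 : ℝ) ≤ k := le_trans (by norm_num) hkR
  have hkp : (0 : ℝ) < k := by linarith
  have hsp : (0 : ℝ) < s := lt_of_lt_of_le (by positivity) hs
  have h1 : (k : ℝ) ^ (3.96 : ℝ) ≤ (s : ℝ) ^ 4 := by
    have h2 : ((k : ℝ) ^ (0.99 : ℝ)) ^ 4 ≤ (s : ℝ) ^ 4 :=
      pow_le_pow_left₀ (by positivity) hs 4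
    refine le_trans (le_of_eq ?_) h2
    rw [← Real.rpow_natCast, ← Real.rpow_mul hkp.le]
    norm_num
  have h2 : ((k : ℝ) ^ (-0.45 : ℝ)) ^ 2 / (2 * (36 * (k : ℝ) ^ 3 / (s : ℝ) ^ 4)) =
      (k : ℝ) ^ (-0.9 : ℝ) * (s : ℝ) ^ 4 / (72 * (k : ℝ) ^ 3) := by
    have h3 : ((k : ℝ) ^ (-0.45 : ℝ)) ^ 2 = (k : ℝ) ^ (-0.9 : ℝ) := by
      rw [← Real.rpow_natCast, ← Real.rpow_mul hkp.le]
      norm_num
    rw [h3]
    field_simp
    ring
  have h3 : (k : ℝ) ^ (0.06 : ℝ) / 72 ≤
      (k : ℝ) ^ (-0.9 : ℝ) * (s : ℝ) ^ 4 / (72 * (k : ℝ) ^ 3) := by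
    have h4 : (k : ℝ) ^ (0.06 : ℝ) / 72 =
        (k : ℝ) ^ (-0.9 : ℝ) * (k : ℝ) ^ (3.96 : ℝ) / (72 * (k : ℝ) ^ 3) := by
      have h5 : (k : ℝ) ^ (0.06 : ℝ) * (k : ℝ) ^ 3 =
          (k : ℝ) ^ (-0.9 : ℝ) * (k : ℝ) ^ (3.96 : ℝ) := by
        rw [← Real.rpow_natCast, ← Real.rpow_add hkp, ← Real.rpow_add hkp]
        norm_num
      rw [← h5]
      field_simp
    rw [h4]
    gcongr
  have h4 : 144 * (k : ℝ) ^ (0.01 : ℝ) ≤ (k : ℝ) ^ (0.06 : ℝ) := by
    have h5 : (k : ℝ) ^ (0.06 : ℝ) = (k : ℝ) ^ (0.05 : ℝ) * (k : ℝ) ^ (0.01 : ℝ) := by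
      rw [← Real.rpow_add hkp]
      norm_num
    have h6 : (144 : ℝ) ≤ (k : ℝ) ^ (0.05 : ℝ) := by
      have h7 : (((144 : ℝ) ^ 20) ^ (0.05 : ℝ)) ≤ (k : ℝ) ^ (0.05 : ℝ) :=
        Real.rpow_le_rpow (by positivity) hkR (by norm_num)
      have h8 : (((144 : ℝ) ^ 20) ^ (0.05 : ℝ)) = 144 := by
        rw [← Real.rpow_natCast, ← Real.rpow_mul (by norm_num)]
        norm_num
      linarith
    rw [h5]
    exact mul_le_mul_of_nonneg_right h6 (by positivity)
  have h5 : (1 : ℝ) ≤ (k : ℝ) ^ (0.01 : ℝ) := Real.one_le_rpow hk1 (by norm_num)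
  rw [h2]
  set X := (k : ℝ) ^ (-0.9 : ℝ) * (s : ℝ) ^ 4 / (72 * (k : ℝ) ^ 3) with hX
  have h6 : (k : ℝ) ^ (0.01 : ℝ) + 1 ≤ X := by linarith
  have h7 : (2 : ℝ) ≤ Real.exp 1 := by
    have := Real.add_one_le_exp (1 : ℝ)
    linarith
  calc 2 * Real.exp (-X) ≤ Real.exp 1 * Real.exp (-X) :=
        mul_le_mul_of_nonneg_right h7 (Real.exp_pos _).le
    _ = Real.exp (1 - X) := by rw [← Real.exp_add]; ring_nf
    _ ≤ Real.exp (-(k : ℝ) ^ (0.01 : ℝ)) := Real.exp_le_exp.2 (by linarith)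

theorem res : RESStmt := by
  refine ⟨144 ^ 20, ?_⟩
  intro k K s hk hKk hK hs hsk V _ R O hC hO has hod T h N h1 h01 hT x
  have hkR : ((144 : ℝ) ^ 20) ≤ k := by exact_mod_cast hk
  have hk1 : (1 : ℝ) ≤ k := le_trans (by norm_num) hkR
  have hkp : (0 : ℝ) < k := by linarith
  have hne : Nonempty (Fin K) := ⟨⟨0, hK⟩⟩
  have hs32R : (32 : ℝ) ≤ s := by
    refine le_trans ?_ hs
    have h2 : (((144 : ℝ) ^ 20) ^ (0.99 : ℝ)) ≤ (k : ℝ) ^ (0.99 : ℝ) :=
      Real.rpow_le_rpow (by positivity) hkR (by norm_num)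
    refine le_trans ?_ h2
    have h3 : ((144 : ℝ) ^ 20) ^ (0.05 : ℝ) ≤ ((144 : ℝ) ^ 20) ^ (0.99 : ℝ) :=
      Real.rpow_le_rpow_of_exponent_le (by norm_num) (by norm_num)
    have h8 : (((144 : ℝ) ^ 20) ^ (0.05 : ℝ)) = 144 := by
      rw [← Real.rpow_natCast, ← Real.rpow_mul (by norm_num)]
      norm_num
    linarith
  have hs32 : 32 ≤ s := by exact_mod_cast hs32R
  have hsp : (0 : ℝ) < s := by linarith
  refine le_trans (fiber_count (SS O x) _
    (2 * Real.exp (-(((k : ℝ) ^ (-0.45 : ℝ)) ^ 2 / (2 * (36 * (k : ℝ) ^ 3 / (s : ℝ) ^ 4)))))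
    ?_) (mul_le_mul_of_nonneg_right (num hk hs) (Nat.cast_nonneg _))
  intro ω0
  set mx : (Sym2 V → Fin K) → (Sym2 V → Fin K) := fun η => (SS O x).piecewise ω0 η with hmx
  have hS : ∀ η, ∀ a ∈ SS O x, mx η a = ω0 a := fun η a ha =>
    Finset.piecewise_eq_of_mem _ _ _ ha
  have hn : ∀ η a, a ∉ SS O x → mx η a = η a := fun η a ha =>
    Finset.piecewise_eq_of_notMem _ _ _ ha
  set cy : V → ℝ := fun y => (max (cP (fun u v => O v u) T ω0 y) ((s : ℝ) / 2))⁻¹ with hcy'
  have hcy : ∀ y, 0 ≤ cy y ∧ cy y ≤ 2 / s := by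
    intro y
    have h2 : (s : ℝ) / 2 ≤ max (cP (fun u v => O v u) T ω0 y) ((s : ℝ) / 2) := le_max_right _ _
    have h3 : 0 < max (cP (fun u v => O v u) T ω0 y) ((s : ℝ) / 2) := by linarith
    refine ⟨inv_nonneg.2 h3.le, ?_⟩
    have h4 : (2 : ℝ) / s = ((s : ℝ) / 2)⁻¹ := by rw [inv_div]
    rw [h4]
    exact inv_anti₀ (by positivity) h2
  set f : (Sym2 V → Fin K) → ℝ := fun η => Fr O T h s N h1 (mx η) x with hf'
  have hf : ∀ η, f η = ∑ p ∈ LL O T ω0 x, cy p.1 *
      (muG T h s N h1 (od O p.2 - 1) - GP O T h s N (mx η) p.2) := fun η =>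
    Fr_eq O T h s N h1 ω0 (mx η) x (hS η)
  have hm : mean f = 0 := by
    have e : f = fun η => ∑ p ∈ LL O T ω0 x, cy p.1 *
      (muG T h s N h1 (od O p.2 - 1) - GP O T h s N (mx η) p.2) := funext hf
    rw [e, mean_sum]
    apply Finset.sum_eq_zero
    intro p hp
    unfold LL at hp
    simp only [Finset.mem_filter, Finset.mem_univ, true_and] at hp
    rw [mean_mul_left, mean_sub, mean_const, mean_GP hC hO has hp.1.1 hp.2.2.1 hp.2.1 hK T h s N
      h1 hT ω0 hp.2.2.2 mx hS hn, sub_self, mul_zero]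
  set c : Sym2 V → ℝ := fun a => if ∃ p ∈ LL O T ω0 x, ∃ z, O p.2 z ∧ a = s(p.2, z) then
    6 / (s : ℝ) ^ 2 else 0 with hc
  have hd : ∀ a η η', (∀ b, b ≠ a → η b = η' b) → |f η - f η'| ≤ c a := by
    intro a η η' hab
    have hmm : ∀ b, b ≠ a → mx η' b = mx η b := by
      intro b hb
      by_cases hbS : b ∈ SS O x
      · rw [hS _ _ hbS, hS _ _ hbS]
      · rw [hn _ _ hbS, hn _ _ hbS, hab b hb]
    rw [hf, hf, ← Finset.sum_sub_distrib]
    have e2 : ∀ p ∈ LL O T ω0 x, |cy p.1 * (muG T h s N h1 (od O p.2 - 1) -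
        GP O T h s N (mx η) p.2) - cy p.1 * (muG T h s N h1 (od O p.2 - 1) -
        GP O T h s N (mx η') p.2)| ≤
        2 / s * (if ∃ z, O p.2 z ∧ a = s(p.2, z) then 3 / (s : ℝ) else 0) := by
      intro p _
      have e3 : cy p.1 * (muG T h s N h1 (od O p.2 - 1) - GP O T h s N (mx η) p.2) -
          cy p.1 * (muG T h s N h1 (od O p.2 - 1) - GP O T h s N (mx η') p.2) =
          cy p.1 * (GP O T h s N (mx η') p.2 - GP O T h s N (mx η) p.2) := by ring
      rw [e3, abs_mul, abs_of_nonneg (hcy _).1]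
      apply mul_le_mul (hcy _).2 _ (abs_nonneg _) (by positivity)
      exact GP_diff O T h h01 hs32 N (mx η') (mx η) a hmm p.2
    refine (Finset.abs_sum_le_sum_abs _ _).trans ((Finset.sum_le_sum e2).trans ?_)
    rw [hc]
    by_cases hex : ∃ p ∈ LL O T ω0 x, ∃ z, O p.2 z ∧ a = s(p.2, z)
    · simp only [hex, if_true]
      obtain ⟨p, hp, hz⟩ := hex
      rw [Finset.sum_eq_single p]
      · rw [if_pos hz]
        apply le_of_eq
        field_simp
        norm_num
      · intro p' hp' hne'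
        rw [if_neg, mul_zero]
        intro hz'
        exact hne' (LL_uniq hC hO has hp' hp hz' hz)
      · intro hn'
        exact absurd hp hn'
    · simp only [hex, if_false]
      apply le_of_eq
      apply Finset.sum_eq_zero
      intro p hp
      rw [if_neg, mul_zero]
      exact fun hz => hex ⟨p, hp, hz⟩
  have hsum : ∑ a, c a ^ 2 ≤ 36 * (k : ℝ) ^ 3 / (s : ℝ) ^ 4 := by
    have e4 : ∀ a ∈ (univ : Finset (Sym2 V)), c a ^ 2 =
        if ∃ p ∈ LL O T ω0 x, ∃ z, O p.2 z ∧ a = s(p.2, z) then 36 / (s : ℝ) ^ 4 else 0 := by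
      intro a _
      rw [hc]
      by_cases hex : ∃ p ∈ LL O T ω0 x, ∃ z, O p.2 z ∧ a = s(p.2, z)
      · simp only [hex, if_true]
        field_simp
        norm_num
      · simp only [hex, if_false]
        norm_num
    rw [Finset.sum_congr rfl e4, ← Finset.sum_filter, Finset.sum_const, nsmul_eq_mul]
    have e5 := LL_card (K := K) (O := O) (x := x) (T := T) (ω0 := ω0) hod
    calc ((univ.filter fun a : Sym2 V => ∃ p ∈ LL O T ω0 x, ∃ z, O p.2 z ∧
        a = s(p.2, z)).card : ℝ) * (36 / (s : ℝ) ^ 4) ≤ (k : ℝ) ^ 3 * (36 / (s : ℝ) ^ 4) := by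
          apply mul_le_mul_of_nonneg_right _ (by positivity)
          exact_mod_cast e5
      _ = _ := by ring
  exact mcd_abs f c hd (36 * (k : ℝ) ^ 3 / (s : ℝ) ^ 4) ((k : ℝ) ^ (-0.45 : ℝ)) hsum
    (by positivity) (by positivity) _ (fun η hη => by
      rw [hm, sub_zero]
      exact hη)

end main

end Pool.Agent.C4N.H82
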