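import Pool.Agent.C4N.Defs

/-!
# ROT: sequential rotations in a linear forest

Requests `j : ι`: insert the edge `p j q j`, remove one of the two `F`-edges at `q j` and, if `b j`,
also one of the two `F`-edges at `p j`.  The sides are chosen one after the other so that no cycle
arises.
-/

set_option autoImplicit false
set_option linter.unusedSectionVars false

open scoped BigOperators Classical

noncomputable section

namespace Pool.Agent.C4N.H82

open Finset SimpleGraph

variable {V ι : Type}

/-- one of the two sides is good -/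
theorem rot_side (G : SimpleGraph V) (hG : G.IsAcyclic) {v y z1 z2 : V} (hvy : y ≠ v)
    (hn : ∀ z, G.Adj y z → z = z1 ∨ z = z2) :
    ¬ (G.deleteEdges {s(y, z1)}).Reachable y v ∨
      ¬ (G.deleteEdges {s(y, z2)}).Reachable y v := by
  by_contra hcon
  push Not at hcon
  obtain ⟨w1, hw1⟩ := hcon.1.exists_isPath
  obtain ⟨w2, hw2⟩ := hcon.2.exists_isPath
  have l1 : G.deleteEdges {s(y, z1)} ≤ G := SimpleGraph.deleteEdges_le _
  have l2 : G.deleteEdges {s(y, z2)} ≤ G := SimpleGraph.deleteEdges_le _
  have h := (hG.subsingleton_path y v).elim ⟨w1.mapLe l1, hw1.mapLe l1⟩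
    ⟨w2.mapLe l2, hw2.mapLe l2⟩
  have h' : w1.edges = w2.edges := by
    have h2 := congrArg (fun P : G.Path y v => P.1.edges) h
    simp only [Walk.edges_mapLe_eq_edges] at h2
    exact h2
  cases w2 with
  | nil => exact hvy rfl
  | @cons _ c _ hadj w2' =>
    have h3 := SimpleGraph.deleteEdges_adj.1 hadj
    have hc : c = z1 := by
      rcases hn c h3.1 with h4 | h4
      · exact h4
      · exfalso
        apply h3.2
        rw [h4]
        exact Set.mem_singleton _
    subst hc
    have h5 : s(y, c) ∈ w1.edges := by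
      rw [h']
      simp
    have h6 := w1.edges_subset_edgeSet h5
    rw [SimpleGraph.mem_edgeSet, SimpleGraph.deleteEdges_adj] at h6
    exact h6.2 (Set.mem_singleton _)

variable [Fintype V]

/-- degree after the removal of an edge -/
theorem dg_del (G : SimpleGraph V) {a c : V} (h : G.Adj a c) (v : V) :
    dg (G.deleteEdges {s(a, c)}) v + ((if a = v then 1 else 0) + if c = v then 1 else 0) =
      dg G v := by
  have hne : a ≠ c := h.ne
  unfold dg
  by_cases h1 : a = v
  · subst h1
    rw [if_pos rfl, if_neg hne.symm]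
    have h2 : (G.deleteEdges {s(a, c)}).neighborSet a = G.neighborSet a \ {c} := by
      ext x
      simp only [SimpleGraph.mem_neighborSet, SimpleGraph.deleteEdges_adj, Set.mem_sdiff,
        Set.mem_singleton_iff, Sym2.congr_right]
    rw [h2]
    exact Set.ncard_sdiff_singleton_add_one h (Set.toFinite _)
  · by_cases h3 : c = v
    · subst h3
      rw [if_neg h1, if_pos rfl]
      have h2 : (G.deleteEdges {s(a, c)}).neighborSet c = G.neighborSet c \ {a} := by
        ext x
        simp only [SimpleGraph.mem_neighborSet, SimpleGraph.deleteEdges_adj, Set.mem_sdiff,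
          Set.mem_singleton_iff]
        rw [Sym2.eq_swap (a := a), Sym2.congr_right]
      rw [h2]
      exact Set.ncard_sdiff_singleton_add_one h.symm (Set.toFinite _)
    · rw [if_neg h1, if_neg h3]
      have h2 : (G.deleteEdges {s(a, c)}).neighborSet v = G.neighborSet v := by
        ext x
        simp only [SimpleGraph.mem_neighborSet, SimpleGraph.deleteEdges_adj,
          Set.mem_singleton_iff, Sym2.eq_iff]
        constructor
        · exact fun h => h.1
        · intro h
          refine ⟨h, ?_⟩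
          rintro (⟨h4, _⟩ | ⟨h4, _⟩)
          · exact h1 h4.symm
          · exact h3 h4.symm
      rw [h2, add_zero, add_zero]

/-- degree after the insertion of an edge -/
theorem dg_add (G : SimpleGraph V) {a c : V} (h : ¬ G.Adj a c) (hne : a ≠ c) (v : V) :
    dg (G ⊔ edge a c) v =
      dg G v + ((if a = v then 1 else 0) + if c = v then 1 else 0) := by
  have hE : (G ⊔ edge a c).Adj a c := by
    right
    rw [SimpleGraph.edge_adj]
    exact ⟨Or.inl ⟨rfl, rfl⟩, hne⟩
  have h2 := dg_del (G ⊔ edge a c) hE v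
  have e : (G ⊔ edge a c).deleteEdges {s(a, c)} = G := by
    ext x y
    simp only [SimpleGraph.deleteEdges_adj, SimpleGraph.sup_adj, SimpleGraph.edge_adj,
      Set.mem_singleton_iff]
    constructor
    · rintro ⟨h3 | h3, h4⟩
      · exact h3
      · exfalso
        apply h4
        rw [Sym2.eq_iff]
        rcases h3.1 with ⟨rfl, rfl⟩ | ⟨rfl, rfl⟩ <;> simp
    · intro h3
      refine ⟨Or.inl h3, ?_⟩
      intro h4
      rw [Sym2.eq_iff] at h4
      rcases h4 with ⟨rfl, rfl⟩ | ⟨rfl, rfl⟩
      · exact h h3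
      · exact h h3.symm
  rw [e] at h2
  exact h2.symm

/-- the state after the requests in `S` -/
structure RS (F : SimpleGraph V) (p q : ι → V) (b : ι → Prop) (S : Finset ι) (zq zp : ι → V)
    (G : SimpleGraph V) : Prop where
  ac : G.IsAcyclic
  dg : ∀ v, dg G v + ((∑ l ∈ S, if zq l = v then 1 else 0) +
    ∑ l ∈ S, if b l ∧ zp l = v then 1 else 0) =
      dg F v + ∑ l ∈ S, if ¬ b l ∧ p l = v then 1 else 0
  aq : ∀ j ∈ S, F.Adj (q j) (zq j)
  ap : ∀ j ∈ S, b j → F.Adj (p j) (zp j)
  form : ∀ x y, G.Adj x y ↔ (F.Adj x y ∧ ∀ l ∈ S, s(x, y) ≠ s(q l, zq l) ∧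
    (b l → s(x, y) ≠ s(p l, zp l))) ∨ ∃ l ∈ S, s(x, y) = s(p l, q l)

/-- the hypotheses -/
structure RH (F : SimpleGraph V) (p q : ι → V) (b : ι → Prop) : Prop where
  ne : ∀ j, p j ≠ q j
  na : ∀ j, ¬ F.Adj (p j) (q j)
  dq : ∀ j, dg F (q j) = 2
  dp : ∀ j, b j → dg F (p j) = 2
  qq : ∀ j l, j ≠ l → q j ≠ q l ∧ ¬ F.Adj (q j) (q l)
  pp : ∀ j l, j ≠ l → b j → b l → p j ≠ p l ∧ ¬ F.Adj (p j) (p l)
  pq : ∀ j l, j ≠ l → b j → p j ≠ q l ∧ ¬ F.Adj (p j) (q l)
  pn : ∀ j l, ¬ b j → p j ≠ q l ∧ (b l → p j ≠ p l)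

/-- the neighbours of a centre are unchanged -/
theorem cen {F : SimpleGraph V} {p q : ι → V} {b : ι → Prop} {S : Finset ι} {zq zp : ι → V}
    {G : SimpleGraph V} (hS : RS F p q b S zq zp G) {y : V}
    (h1 : ∀ l ∈ S, y ≠ q l ∧ ¬ F.Adj y (q l)) (h2 : ∀ l ∈ S, y ≠ p l)
    (h3 : ∀ l ∈ S, b l → ¬ F.Adj y (p l)) (z : V) : G.Adj y z ↔ F.Adj y z := by
  rw [hS.form]
  constructor
  · rintro (h | ⟨l, hl, h⟩)
    · exact h.1
    · exfalso
      rw [Sym2.eq_iff] at h
      rcases h with ⟨h, _⟩ | ⟨h, _⟩
      · exact h2 l hl h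
      · exact (h1 l hl).1 h
  · intro h
    left
    refine ⟨h, fun l hl => ⟨?_, fun hb => ?_⟩⟩
    · intro h4
      rw [Sym2.eq_iff] at h4
      rcases h4 with ⟨h4, _⟩ | ⟨_, h4⟩
      · exact (h1 l hl).1 h4
      · rw [h4] at h
        exact (h1 l hl).2 h
    · intro h4
      rw [Sym2.eq_iff] at h4
      rcases h4 with ⟨h4, _⟩ | ⟨_, h4⟩
      · exact h2 l hl h4
      · rw [h4] at h
        exact h3 l hl hb h

/-- two neighbours -/
theorem two_nb (G : SimpleGraph V) (y : V) (h : dg G y = 2) :
    ∃ z1 z2, z1 ≠ z2 ∧ G.Adj y z1 ∧ G.Adj y z2 ∧ ∀ z, G.Adj y z → z = z1 ∨ z = z2 := by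
  unfold dg at h
  rw [Set.ncard_eq_two] at h
  obtain ⟨z1, z2, hne, h⟩ := h
  have hz : ∀ z, G.Adj y z ↔ z = z1 ∨ z = z2 := by
    intro z
    rw [← SimpleGraph.mem_neighborSet, h]
    simp
  exact ⟨z1, z2, hne, (hz z1).2 (Or.inl rfl), (hz z2).2 (Or.inr rfl), fun z => (hz z).1⟩

/-- one more request -/
theorem RS_step {F : SimpleGraph V} {p q : ι → V} {b : ι → Prop} (hH : RH F p q b)
    {S : Finset ι} {zq zp : ι → V} {G : SimpleGraph V} (hS : RS F p q b S zq zp G) {j : ι}
    (hj : j ∉ S) : ∃ zq' zp' G', RS F p q b (insert j S) zq' zp' G' := by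
  have hjl : ∀ l ∈ S, j ≠ l := fun l hl h => hj (h ▸ hl)
  have cq : ∀ z, G.Adj (q j) z ↔ F.Adj (q j) z := cen hS (fun l hl => hH.qq j l (hjl l hl))
    (fun l hl h => by
      by_cases hb : b l
      · exact (hH.pq l j (hjl l hl).symm hb).1 h.symm
      · exact (hH.pn l j hb).1 h.symm)
    (fun l hl hb h => (hH.pq l j (hjl l hl).symm hb).2 h.symm)
  have cp : b j → ∀ z, G.Adj (p j) z ↔ F.Adj (p j) z := fun hbj =>
    cen hS (fun l hl => hH.pq j l (hjl l hl) hbj)
    (fun l hl h => by
      by_cases hb : b l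
      · exact (hH.pp j l (hjl l hl) hbj hb).1 h
      · exact (hH.pn l j hb).2 hbj h.symm)
    (fun l hl hb h => (hH.pp j l (hjl l hl) hbj hb).2 h)
  have hdq : dg G (q j) = 2 := by
    rw [← hH.dq j]
    unfold dg
    congr 1
    ext z
    exact cq z
  have hna : ¬ G.Adj (p j) (q j) := fun h => hH.na j ((cq _).1 h.symm).symm
  -- the inserted edges do not contain the centres
  have hins : ∀ l ∈ S, ∀ x, s(p l, q l) ≠ s(q j, x) := by
    intro l hl x h
    rw [Sym2.eq_iff] at h
    rcases h with ⟨h, _⟩ | ⟨_, h⟩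
    · by_cases hb : b l
      · exact (hH.pq l j (hjl l hl).symm hb).1 h
      · exact (hH.pn l j hb).1 h
    · exact (hH.qq j l (hjl l hl)).1 h.symm
  have hins' : b j → ∀ l ∈ S, ∀ x, s(p l, q l) ≠ s(p j, x) := by
    intro hbj l hl x h
    rw [Sym2.eq_iff] at h
    rcases h with ⟨h, _⟩ | ⟨_, h⟩
    · by_cases hb : b l
      · exact (hH.pp j l (hjl l hl) hbj hb).1 h.symm
      · exact (hH.pn l j hb).2 hbj h
    · exact (hH.pq j l (hjl l hl) hbj).1 h.symm
  have up : ∀ (g : ι → V) (z : V), ∀ l ∈ S, Function.update g j z l = g l := fun g z l hl =>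
    Function.update_of_ne (hjl l hl).symm _ _
  obtain ⟨z1, z2, hz12, ha1, ha2, hn⟩ := two_nb G (q j) hdq
  by_cases hb : b j
  · -- both ends are centres
    have hdp : dg G (p j) = 2 := by
      rw [← hH.dp j hb]
      unfold dg
      congr 1
      ext z
      exact cp hb z
    obtain ⟨y1, y2, hy12, hb1, hb2, hm⟩ := two_nb G (p j) hdp
    obtain ⟨y, hy, hr⟩ : ∃ y, G.Adj (p j) y ∧
        ¬ (G.deleteEdges {s(p j, y)}).Reachable (p j) (q j) := by
      rcases rot_side G hS.ac (hH.ne j) hm with h | h
      · exact ⟨y1, hb1, h⟩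
      · exact ⟨y2, hb2, h⟩
    set G1 := G.deleteEdges {s(p j, y)} with hG1
    have hne1 : s(q j, z1) ≠ s(p j, y) := by
      intro h
      rw [Sym2.eq_iff] at h
      rcases h with ⟨h, _⟩ | ⟨h, h'⟩
      · exact hH.ne j h.symm
      · rw [h'] at ha1
        exact hna ha1.symm
    have ha1' : G1.Adj (q j) z1 := by
      rw [hG1, SimpleGraph.deleteEdges_adj]
      exact ⟨ha1, fun h => hne1 (Set.mem_singleton_iff.1 h)⟩
    set G2 := G1.deleteEdges {s(q j, z1)} with hG2
    have hG2G : G2 ≤ G := (SimpleGraph.deleteEdges_le _).trans (SimpleGraph.deleteEdges_le _)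
    have hna2 : ¬ G2.Adj (p j) (q j) := fun h => hna (hG2G h)
    refine ⟨Function.update zq j z1, Function.update zp j y, G2 ⊔ edge (p j) (q j),
      ?_, ?_, ?_, ?_, ?_⟩
    · apply SimpleGraph.IsAcyclic.sup_edge_of_not_reachable
      · exact fun h => hr (h.mono (SimpleGraph.deleteEdges_le _))
      · exact hS.ac.anti hG2G
    · intro v
      rw [Finset.sum_insert hj, Finset.sum_insert hj, Finset.sum_insert hj,
        Function.update_self, Function.update_self,
        Finset.sum_congr rfl (fun l hl => by rw [up zq z1 l hl] :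
          ∀ l ∈ S, (if Function.update zq j z1 l = v then 1 else 0) =
            if zq l = v then 1 else 0),
        Finset.sum_congr rfl (fun l hl => by rw [up zp y l hl] :
          ∀ l ∈ S, (if b l ∧ Function.update zp j y l = v then 1 else 0) =
            if b l ∧ zp l = v then 1 else 0)]
      have d1 := dg_del G hy v
      have d2 := dg_del G1 ha1' v
      have d3 := dg_add G2 hna2 (hH.ne j) v
      have d4 := hS.dg v
      rw [← hG1] at d1
      rw [← hG2] at d2
      rw [if_neg (show ¬ (¬ b j ∧ p j = v) from fun h => h.1 hb)]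
      have e1 : (if b j ∧ y = v then 1 else 0) = if y = v then 1 else 0 := by
        simp [hb]
      rw [e1]
      omega
    · intro l hl
      rcases Finset.mem_insert.1 hl with rfl | hl
      · rw [Function.update_self]
        exact (cq z1).1 ha1
      · rw [up zq z1 l hl]
        exact hS.aq l hl
    · intro l hl hbl
      rcases Finset.mem_insert.1 hl with rfl | hl
      · rw [Function.update_self]
        exact (cp hb y).1 hy
      · rw [up zp y l hl]
        exact hS.ap l hl hbl
    · intro x x'
      have e : (G2 ⊔ edge (p j) (q j)).Adj x x' ↔ (G.Adj x x' ∧ s(x, x') ≠ s(p j, y) ∧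
          s(x, x') ≠ s(q j, z1)) ∨ s(x, x') = s(p j, q j) := by
        rw [SimpleGraph.sup_adj, hG2, SimpleGraph.deleteEdges_adj, hG1,
          SimpleGraph.deleteEdges_adj, SimpleGraph.edge_adj, Set.mem_singleton_iff,
          Set.mem_singleton_iff, Sym2.eq_iff (x := x) (y := x') (z := p j) (w := q j)]
        constructor
        · rintro (h | h)
          · exact Or.inl ⟨h.1.1, h.1.2, h.2⟩
          · exact Or.inr h.1
        · rintro (h | h)
          · exact Or.inl ⟨⟨h.1, h.2.1⟩, h.2.2⟩
          · refine Or.inr ⟨h, ?_⟩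
            rcases h with ⟨rfl, rfl⟩ | ⟨rfl, rfl⟩
            · exact hH.ne j
            · exact (hH.ne j).symm
      rw [e, hS.form]
      constructor
      · rintro (⟨⟨h1, h2⟩ | ⟨l, hl, h1⟩, h3, h4⟩ | h)
        · left
          refine ⟨h1, fun l hl => ?_⟩
          rcases Finset.mem_insert.1 hl with rfl | hl
          · rw [Function.update_self, Function.update_self]
            exact ⟨h4, fun _ => h3⟩
          · rw [up zq z1 l hl, up zp y l hl]
            exact h2 l hl
        · exact Or.inr ⟨l, Finset.mem_insert_of_mem hl, h1⟩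
        · exact Or.inr ⟨j, Finset.mem_insert_self _ _, h⟩
      · rintro (⟨h1, h2⟩ | ⟨l, hl, h⟩)
        · left
          have h3 := h2 j (Finset.mem_insert_self _ _)
          rw [Function.update_self, Function.update_self] at h3
          refine ⟨Or.inl ⟨h1, fun l hl => ?_⟩, h3.2 hb, h3.1⟩
          have h4 := h2 l (Finset.mem_insert_of_mem hl)
          rw [up zq z1 l hl, up zp y l hl] at h4
          exact h4
        · rcases Finset.mem_insert.1 hl with rfl | hl
          · exact Or.inr h
          · left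
            refine ⟨Or.inr ⟨l, hl, h⟩, ?_, ?_⟩
            · rw [h]
              exact hins' hb l hl y
            · rw [h]
              exact hins l hl z1
  · -- only `q j` is a centre
    obtain ⟨z, hz, hr⟩ : ∃ z, G.Adj (q j) z ∧
        ¬ (G.deleteEdges {s(q j, z)}).Reachable (q j) (p j) := by
      rcases rot_side G hS.ac (hH.ne j).symm hn with h | h
      · exact ⟨z1, ha1, h⟩
      · exact ⟨z2, ha2, h⟩
    set G1 := G.deleteEdges {s(q j, z)} with hG1
    have hG1G : G1 ≤ G := SimpleGraph.deleteEdges_le _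
    have hna1 : ¬ G1.Adj (p j) (q j) := fun h => hna (hG1G h)
    refine ⟨Function.update zq j z, zp, G1 ⊔ edge (p j) (q j), ?_, ?_, ?_, ?_, ?_⟩
    · apply SimpleGraph.IsAcyclic.sup_edge_of_not_reachable
      · exact fun h => hr h.symm
      · exact hS.ac.anti hG1G
    · intro v
      rw [Finset.sum_insert hj, Finset.sum_insert hj, Finset.sum_insert hj,
        Function.update_self,
        Finset.sum_congr rfl (fun l hl => by rw [up zq z l hl] :
          ∀ l ∈ S, (if Function.update zq j z l = v then 1 else 0) =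
            if zq l = v then 1 else 0)]
      have d1 := dg_del G hz v
      have d3 := dg_add G1 hna1 (hH.ne j) v
      have d4 := hS.dg v
      rw [← hG1] at d1
      rw [if_neg (show ¬ (b j ∧ zp j = v) from fun h => hb h.1)]
      have e1 : (if ¬ b j ∧ p j = v then 1 else 0) = if p j = v then 1 else 0 := by
        simp [hb]
      rw [e1]
      omega
    · intro l hl
      rcases Finset.mem_insert.1 hl with rfl | hl
      · rw [Function.update_self]
        exact (cq z).1 hz
      · rw [up zq z l hl]
        exact hS.aq l hl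
    · intro l hl hbl
      rcases Finset.mem_insert.1 hl with rfl | hl
      · exact absurd hbl hb
      · exact hS.ap l hl hbl
    · intro x x'
      have e : (G1 ⊔ edge (p j) (q j)).Adj x x' ↔ (G.Adj x x' ∧
          s(x, x') ≠ s(q j, z)) ∨ s(x, x') = s(p j, q j) := by
        rw [SimpleGraph.sup_adj, hG1, SimpleGraph.deleteEdges_adj, SimpleGraph.edge_adj,
          Set.mem_singleton_iff, Sym2.eq_iff (x := x) (y := x') (z := p j) (w := q j)]
        constructor
        · rintro (h | h)
          · exact Or.inl h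
          · exact Or.inr h.1
        · rintro (h | h)
          · exact Or.inl h
          · refine Or.inr ⟨h, ?_⟩
            rcases h with ⟨rfl, rfl⟩ | ⟨rfl, rfl⟩
            · exact hH.ne j
            · exact (hH.ne j).symm
      rw [e, hS.form]
      constructor
      · rintro (⟨⟨h1, h2⟩ | ⟨l, hl, h1⟩, h3⟩ | h)
        · left
          refine ⟨h1, fun l hl => ?_⟩
          rcases Finset.mem_insert.1 hl with rfl | hl
          · rw [Function.update_self]
            exact ⟨h3, fun hbl => absurd hbl hb⟩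
          · rw [up zq z l hl]
            exact h2 l hl
        · exact Or.inr ⟨l, Finset.mem_insert_of_mem hl, h1⟩
        · exact Or.inr ⟨j, Finset.mem_insert_self _ _, h⟩
      · rintro (⟨h1, h2⟩ | ⟨l, hl, h⟩)
        · left
          have h3 := h2 j (Finset.mem_insert_self _ _)
          rw [Function.update_self] at h3
          refine ⟨Or.inl ⟨h1, fun l hl => ?_⟩, h3.1⟩
          have h4 := h2 l (Finset.mem_insert_of_mem hl)
          rw [up zq z l hl] at h4
          exact h4
        · rcases Finset.mem_insert.1 hl with rfl | hl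
          · exact Or.inr h
          · left
            refine ⟨Or.inr ⟨l, hl, h⟩, ?_⟩
            rw [h]
            exact hins l hl z

/-- **ROT**: sequential rotations -/
theorem rot [Fintype ι] (F : SimpleGraph V) (hF : F.IsAcyclic) (p q : ι → V) (b : ι → Prop)
    (hH : RH F p q b) :
    ∃ (zq zp : ι → V) (G : SimpleGraph V), G.IsAcyclic ∧ (∀ j, F.Adj (q j) (zq j)) ∧
      (∀ j, b j → F.Adj (p j) (zp j)) ∧
      (∀ v, dg G v + ((univ.filter fun l => zq l = v).card +
        (univ.filter fun l => b l ∧ zp l = v).card) =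
        dg F v + (univ.filter fun l => ¬ b l ∧ p l = v).card) ∧
      ∀ x y, G.Adj x y ↔ (F.Adj x y ∧ ∀ l, s(x, y) ≠ s(q l, zq l) ∧
        (b l → s(x, y) ≠ s(p l, zp l))) ∨ ∃ l, s(x, y) = s(p l, q l) := by
  have key : ∀ S : Finset ι, ∃ zq zp G, RS F p q b S zq zp G := by
    intro S
    induction S using Finset.induction_on with
    | empty =>
      refine ⟨p, p, F, hF, fun v => by simp, by simp, by simp, fun x y => by simp⟩
    | insert j S hj ih =>
      obtain ⟨zq, zp, G, hS⟩ := ih
      exact RS_step hH hS hj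
  obtain ⟨zq, zp, G, hS⟩ := key univ
  refine ⟨zq, zp, G, hS.ac, fun j => hS.aq j (Finset.mem_univ _),
    fun j => hS.ap j (Finset.mem_univ _), fun v => ?_, fun x y => ?_⟩
  · have h := hS.dg v
    simp only [Finset.card_filter]
    exact h
  · rw [hS.form]
    simp

end Pool.Agent.C4N.H82
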